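import Pool.Agent.W617.LG.StmIV

/-! Up-down-up (S_UDU), for helper617. -/

set_option autoImplicit false

open Topology Filter Set MeasureTheory
open scoped ContDiff InnerProductSpace

namespace Pool.Agent.W646.LG

open Pool.Agent.W617.LG

theorem trace_eq {q : ℕ} {C : TF q} {τ : E q → ℝ} (h : LW q C τ) {x : E q}
    {e : Fin (q + 1) → E q} (he : AF C x e) :
    LinearMap.trace ℝ (E q) (C x (e 0)).toLinearMap = lam C x (e 0) := by
  have hx : x ≠ 0 := he.x0
  have hn : ‖x‖ ≠ 0 := norm_ne_zero_iff.mpr hx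
  set v : Fin (q + 2) → E q := Fin.cons (‖x‖⁻¹ • x) e with hv
  have hon : Orthonormal ℝ v := by
    rw [orthonormal_iff_ite]
    intro i j
    refine Fin.cases ?_ (fun i => ?_) i
    · refine Fin.cases ?_ (fun j => ?_) j
      · simp only [hv, Fin.cons_zero, if_true]
        rw [real_inner_smul_left, real_inner_smul_right, real_inner_self_eq_norm_sq]
        field_simp
      · simp only [hv, Fin.cons_zero, Fin.cons_succ]
        rw [real_inner_smul_left, he.rad, mul_zero, if_neg (Fin.succ_ne_zero j).symm]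
    · refine Fin.cases ?_ (fun j => ?_) j
      · simp only [hv, Fin.cons_zero, Fin.cons_succ]
        rw [real_inner_smul_right, real_inner_comm, he.rad, mul_zero,
          if_neg (Fin.succ_ne_zero i)]
      · simp only [hv, Fin.cons_succ]
        rw [he.on]
        simp [Fin.succ_inj]
  have hr : Orthonormal ℝ ((univ : Set (Fin (q + 2))).domRestrict v) := by
    exact hon.comp _ Subtype.val_injective
  obtain ⟨b, hb⟩ := hr.exists_orthonormalBasis_extension_of_card_eq (by simp)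
  have hb' : ∀ i, b i = v i := fun i => hb i (mem_univ i)
  rw [LinearMap.trace_eq_sum_inner _ b, Fin.sum_univ_succ, Fin.sum_univ_succ]
  have h0 : ⟪b 0, (C x (e 0)).toLinearMap (b 0)⟫_ℝ = 0 := by
    rw [hb' 0]
    simp only [hv, Fin.cons_zero]
    change ⟪‖x‖⁻¹ • x, C x (e 0) (‖x‖⁻¹ • x)⟫_ℝ = 0
    rw [map_smul, h.comm12 x hx, h.rad x hx]
    simp
  have h1 : ⟪b (Fin.succ 0), (C x (e 0)).toLinearMap (b (Fin.succ 0))⟫_ℝ = lam C x (e 0) := by
    rw [hb' _]
    simp only [hv, Fin.cons_succ]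
    rw [real_inner_comm]
    rfl
  have h2 : ∀ i : Fin q, ⟪b i.succ.succ, (C x (e 0)).toLinearMap (b i.succ.succ)⟫_ℝ = 0 := by
    intro i
    rw [hb' _]
    simp only [hv, Fin.cons_succ]
    change ⟪e i.succ, C x (e 0) (e i.succ)⟫_ℝ = 0
    rw [he.diag 0 i.succ (Fin.succ_ne_zero i).symm]
    simp
  rw [h0, h1, Finset.sum_eq_zero (fun i _ => h2 i)]
  ring

theorem normal {q : ℕ} {C : TF q} {τ : E q → ℝ} (h : LW q C τ) {x : E q}
    {e : Fin (q + 1) → E q} (he : AF C x e) (hl : ∀ i, lam C x (e i) ≠ 0) :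
    ∃ (y : E q) (f : Fin (q + 1) → E q), ‖y‖ = 3 / 2 ∧ AF C y f ∧ ∀ i, 0 < lam C y (f i) := by
  have hx : x ≠ 0 := he.x0
  have hn : 0 < ‖x‖ := norm_pos_iff.mpr hx
  set r : ℝ := 3 / 2 / ‖x‖ with hr
  have hr0 : 0 < r := by positivity
  have hC : C (r • x) = r⁻¹ • C x := h.hom x hx r hr0
  set σ : Fin (q + 1) → ℝ := fun i => if 0 < lam C x (e i) then 1 else -1 with hσ
  have hσ2 : ∀ i, σ i * σ i = 1 := by
    intro i
    simp only [hσ]
    split_ifs <;> norm_num
  have hσ3 : ∀ i, 0 < σ i * lam C x (e i) := by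
    intro i
    simp only [hσ]
    split_ifs with h0
    · linarith
    · have : lam C x (e i) < 0 := lt_of_le_of_ne (not_lt.mp h0) (hl i)
      linarith
  refine ⟨r • x, fun i => σ i • e i, ?_, ⟨?_, ?_, ?_, ?_⟩, ?_⟩
  · rw [norm_smul, Real.norm_eq_abs, abs_of_pos hr0, hr]
    field_simp
  · exact smul_ne_zero hr0.ne' hx
  · intro i j
    rw [real_inner_smul_left, real_inner_smul_right, he.on]
    split_ifs with hij
    · subst hij
      rw [mul_one, hσ2]
    · ring
  · intro i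
    rw [real_inner_smul_left, real_inner_smul_right, he.rad]
    ring
  · intro i j hij
    rw [hC]
    simp only [ContinuousLinearMap.smul_apply, map_smul]
    rw [he.diag i j hij]
    simp
  · intro i
    unfold lam
    rw [hC]
    simp only [ContinuousLinearMap.smul_apply, map_smul, real_inner_smul_left,
      real_inner_smul_right]
    have : σ i * (σ i * (σ i * (r⁻¹ * ⟪C x (e i) (e i), e i⟫_ℝ)))
        = r⁻¹ * ((σ i * σ i) * (σ i * lam C x (e i))) := by
      unfold lam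
      ring
    rw [this, hσ2, one_mul]
    have := hσ3 i
    positivity

theorem udu (hF : S_FRAME') (hB : S_FIB) (hJ : S_JAC) (hR : S_RET) : S_UDU := by
  intro q C τ φ h hφ hex
  obtain ⟨x1, e1, he1, hl1⟩ := hex
  obtain ⟨x0, f0, hn0, hf0, hl0⟩ := normal h he1 hl1
  obtain ⟨e, hex0, hee⟩ := hF q C τ h x0 f0 hf0 (fun l => (hl0 l.succ).ne')
  have hx0 : x0 ≠ 0 := hf0.x0
  have hCc : ContinuousAt C x0 := (h.smooth x0 hx0).continuousAt
  have hec : ContinuousAt e x0 := hee.self_of_nhds.1.continuousAt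
  -- good frames near x0
  have hlc : ∀ i, ContinuousAt (fun x => lam C x (e x i)) x0 := by
    intro i
    unfold lam
    have h1 : ContinuousAt (fun x => e x i) x0 := (continuous_apply i).continuousAt.comp hec
    exact ((hCc.clm_apply h1).clm_apply h1).inner h1
  have hGF : ∀ᶠ x in 𝓝 x0, GF C x (e x) := by
    have h1 : ∀ l : Fin q, ∀ᶠ x in 𝓝 x0, 0 < lam C x (e x l.succ) := by
      intro l
      apply (hlc l.succ).eventually_const_lt
      show 0 < lam C x0 (e x0 l.succ)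
      rw [hex0]
      exact hl0 l.succ
    have h2 := eventually_all.mpr h1
    filter_upwards [hee, h2] with x hx hx2
    exact ⟨hx.2, hx2⟩
  have hnm : ∀ᶠ x in 𝓝 x0, 1 < ‖x‖ ∧ ‖x‖ < 2 := by
    have hc : ContinuousAt (fun x : E q => ‖x‖) x0 := continuous_norm.continuousAt
    exact (hc.eventually_const_lt (by show 1 < ‖x0‖; rw [hn0]; norm_num)).and
      (hc.eventually_lt_const (by show ‖x0‖ < 2; rw [hn0]; norm_num))
  have hgood : ∀ᶠ x in 𝓝 x0, (ContDiffAt ℝ ∞ e x ∧ ∀ᶠ y in 𝓝 x, GF C y (e y)) ∧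
      (1 < ‖x‖ ∧ ‖x‖ < 2) := by
    filter_upwards [hee, hGF.eventually_nhds, hnm] with x h1 h2 h3
    exact ⟨⟨h1.1, h2⟩, h3⟩
  have hmem : ∀ x, GF C x (e x) → 1 < ‖x‖ → ‖x‖ < 2 → (x, e x) ∈ GA C :=
    fun x h1 h2 h3 => ⟨h1, h2.le, h3.le⟩
  have hg0 := hgood.self_of_nhds
  have hm0 : (x0, e x0) ∈ GA C := hmem x0 hg0.1.2.self_of_nhds hg0.2.1 hg0.2.2
  -- the derivative of tau along the flow
  have hτd : HasFDerivAt τ (fderiv ℝ τ x0) x0 :=
    ((h.tau_smooth x0 hx0).differentiableAt (by simp)).hasFDerivAt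
  have hz0 : φ 0 (x0, e x0) = (x0, e x0) := hφ.zero _ hm0
  have hd0 : HasDerivAt (fun s => τ (φ s (x0, e x0)).1)
      (PP C x0 (e x0) * lam C x0 (e x0 0)) 0 := by
    have h1 := hφ.der _ hm0 0
    rw [hz0] at h1
    have h2 : HasDerivAt (fun s => (φ s (x0, e x0)).1) (XF C (x0, e x0)).1 0 := h1.fst
    have h3 : HasFDerivAt τ (fderiv ℝ τ x0) ((fun s => (φ s (x0, e x0)).1) 0) := by
      simp only [hz0]
      exact hτd
    have h4 := h3.comp_hasDerivAt (0 : ℝ) h2
    have h5 : fderiv ℝ τ x0 (XF C (x0, e x0)).1 = PP C x0 (e x0) * lam C x0 (e x0 0) := by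
      have : (XF C (x0, e x0)).1 = PP C x0 (e x0) • e x0 0 := rfl
      rw [this, map_smul, h.tau_deriv x0 hx0, trace_eq h hg0.1.2.self_of_nhds.toAF]
      rfl
    rw [h5] at h4
    exact h4
  have hpos : 0 < PP C x0 (e x0) * lam C x0 (e x0 0) := by
    apply mul_pos
    · exact Finset.prod_pos fun l _ => hg0.1.2.self_of_nhds.pos l
    · rw [hex0]
      exact hl0 0
  obtain ⟨s1, hs1, hgt⟩ : ∃ s1 : ℝ, 0 < s1 ∧ τ x0 < τ (φ s1 (x0, e x0)).1 := by
    have h1 := hd0.tendsto_slope_zero_right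
    have h2 := h1.eventually (lt_mem_nhds hpos)
    have h3 : ∀ᶠ t : ℝ in 𝓝[>] 0, 0 < t := self_mem_nhdsWithin
    obtain ⟨t, ht1, ht2⟩ := (h2.and h3).exists
    refine ⟨t, ht2, ?_⟩
    simp only [zero_add, hz0, smul_eq_mul] at ht1
    have h4 : 0 < t * (t⁻¹ * (τ (φ t (x0, e x0)).1 - τ x0)) := mul_pos ht2 ht1
    rw [← mul_assoc, mul_inv_cancel₀ ht2.ne', one_mul] at h4
    linarith
  set ε : ℝ := (τ (φ s1 (x0, e x0)).1 - τ x0) / 5 with hε
  have hε0 : 0 < ε := by
    rw [hε]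
    linarith
  -- continuity in x
  have hsm : ∀ x, (ContDiffAt ℝ ∞ e x ∧ ∀ᶠ y in 𝓝 x, GF C y (e y)) ∧ (1 < ‖x‖ ∧ ‖x‖ < 2) →
      ∀ s, ContDiffAt ℝ ∞ (fun y => (φ s (y, e y)).1) x := by
    intro x hx s
    have h1 := hφ.smooth x e hx.2.1 hx.2.2 hx.1.1 hx.1.2 s
    have h2 : ContDiffAt ℝ ∞ (fun y : E q => ((s, y) : ℝ × E q)) x :=
      contDiffAt_const.prodMk contDiffAt_id
    exact (ContDiffAt.comp x h1 h2).fst
  have hτc : ContinuousAt τ x0 := (h.tau_smooth x0 hx0).continuousAt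
  have hφ0 : (φ s1 (x0, e x0)).1 ≠ 0 := by
    intro h0
    have := (hφ.mem _ hm0 s1).2.1
    rw [h0, norm_zero] at this
    linarith
  have hc1 : ContinuousAt (fun x => τ (φ s1 (x, e x)).1) x0 := by
    have h1 : ContinuousAt τ ((fun y => (φ s1 (y, e y)).1) x0) :=
      (h.tau_smooth _ hφ0).continuousAt
    exact ContinuousAt.comp (f := fun y => (φ s1 (y, e y)).1) h1 (hsm x0 hg0 s1).continuousAt
  have hev : ∀ᶠ x in 𝓝 x0, τ x0 + 4 * ε < τ (φ s1 (x, e x)).1 := by
    apply hc1.eventually_const_lt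
    have : τ (φ s1 (x0, e x0)).1 = τ x0 + 5 * ε := by
      rw [hε]
      ring
    simp only [this]
    linarith
  have hev2 : ∀ᶠ x in 𝓝 x0, |τ x - τ x0| < ε / 2 := by
    have := hτc.eventually (Metric.ball_mem_nhds (τ x0) (half_pos hε0))
    filter_upwards [this] with x hx
    rw [← Real.dist_eq]
    exact hx
  obtain ⟨ρ, hρ0, hρ⟩ := Metric.nhds_basis_closedBall.eventually_iff.mp (hgood.and (hev.and hev2))
  set K : Set (E q) := Metric.closedBall x0 ρ with hK
  have hKm : ∀ x ∈ K, (x, e x) ∈ GA C := by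
    intro x hx
    have := (hρ hx).1
    exact hmem x this.1.2.self_of_nhds this.2.1 this.2.2
  set T : ℝ := 2 * s1 with hT
  have hback : ∀ z ∈ GA C, ∀ s, φ (-s) (φ s z) = z := by
    intro z hz s
    rw [← hφ.add z hz, neg_add_cancel, hφ.zero z hz]
  obtain ⟨j, j', hjj, x, hx, x', hx', heq⟩ := hR q (FB q) Prod.fst
    (fun (j : ℕ) x => φ (j * T) (x, e x)) K (Metric.closedBall 0 2) ((2 * (q + 1)) ^ (q + 1))
    (GA C) (isCompact_closedBall x0 ρ) (Metric.measure_closedBall_pos volume x0 hρ0)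
    Metric.isClosed_closedBall.measurableSet measure_closedBall_lt_top
    (by
      intro w
      refine le_trans ?_ ((hB q C τ h).1 w)
      apply Set.encard_le_encard_of_injOn (f := Prod.snd)
      · rintro ⟨a, f⟩ ⟨hz, hw⟩
        have hw' : a = w := hw
        subst hw'
        exact hz.1
      · rintro ⟨a, f⟩ ⟨hz, hw⟩ ⟨a', f'⟩ ⟨hz', hw'⟩ hff
        have h1 : a = w := hw
        have h2 : a' = w := hw'
        have h3 : f = f' := hff
        rw [h1, h2, h3])
    (by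
      intro j x hx x' hx' hxx
      have hxx' : φ (j * T) (x, e x) = φ (j * T) (x', e x') := hxx
      have h1 := hback _ (hKm x hx) (j * T)
      rw [hxx', hback _ (hKm x' hx') (j * T)] at h1
      exact (congrArg Prod.fst h1).symm)
    (by
      intro j x hx
      have h1 := hφ.mem _ (hKm x hx) (j * T)
      refine ⟨h1, ?_⟩
      rw [mem_closedBall_zero_iff]
      exact h1.2.2)
    (by
      intro j x hx
      have h1 := (hρ hx).1
      refine ⟨(hsm x h1 _).of_le (by exact_mod_cast le_top), ?_⟩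
      exact hJ q C τ φ h hφ x e h1.2.1 h1.2.2 h1.1.1 h1.1.2 (j * T))
  have heq' : φ (j * T) (x, e x) = φ (j' * T) (x', e x') := heq
  have hz' := hKm x' hx'
  set s2 : ℝ := ((j' : ℝ) - j) * T with hs2
  have hj1 : (1 : ℝ) ≤ (j' : ℝ) - j := by
    have : (j : ℝ) + 1 ≤ j' := by exact_mod_cast hjj
    linarith
  have hs12 : s1 < s2 := by
    have hT0 : 0 < T := by
      rw [hT]
      linarith
    have : 1 * T ≤ s2 := mul_le_mul_of_nonneg_right hj1 hT0.le
    rw [hT] at this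
    linarith
  have hreturn : φ s2 (x', e x') = (x, e x) := by
    have h1 := hback _ (hKm x hx) (j * T)
    rw [heq', ← hφ.add _ hz'] at h1
    rw [← h1]
    congr 1
    rw [hs2]
    ring
  have a1 := (hρ hx).2
  have a2 := (hρ hx').2
  have b1 := abs_lt.mp a1.2
  have b2 := abs_lt.mp a2.2
  refine ⟨(x', e x'), hz', s1, s2, hs1, hs12, ?_, ?_, ?_⟩
  · show τ x' < _
    linarith [a2.1, b2.1, b2.2]
  · rw [hreturn]
    show τ x < _
    linarith [a2.1, b1.1, b1.2]
  · rw [add_comm s2 s1, hφ.add _ hz', hreturn]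
    show τ x < _
    linarith [a1.1, b1.1, b1.2]

end Pool.Agent.W646.LG
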